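import Mathlib

namespace Pool.Agent.Results.MP_b90bcc_co.Counter

/-- `T a b` means that `(a, b)` is an arc: no loops, exactly one arc between distinct vertices. -/
def IsTournament {V : Type} (T : V → V → Prop) : Prop :=
  (∀ a, ¬ T a a) ∧ ∀ a b, a ≠ b → (T a b ↔ ¬ T b a)

/-- `m` transitive sets of arcs whose union is the set of all arcs. -/
def HasDecomp {V : Type} (T : V → V → Prop) (m : ℕ) : Prop :=
  ∃ P : Fin m → V → V → Prop, (∀ j a b, P j a b → T a b) ∧
    (∀ j a b c, P j a b → P j b c → P j a c) ∧ ∀ a b, T a b → ∃ j, P j a b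

/-- The partial order decomposition number. -/
noncomputable def pod {V : Type} (T : V → V → Prop) : ℕ := sInf {m | HasDecomp T m}

theorem decomp_ex {V : Type} [Finite V] (T : V → V → Prop) : ∃ m, HasDecomp T m := by
  obtain ⟨m, ⟨e⟩⟩ := Finite.exists_equiv_fin (V × V)
  refine ⟨m, fun j a b => e (a, b) = j ∧ T a b, fun j a b h => h.2, ?_,
    fun a b h => ⟨_, rfl, h⟩⟩
  rintro j a b c ⟨h1, h2⟩ ⟨h3, -⟩
  have := e.injective (h1.trans h3.symm)
  obtain ⟨-, rfl⟩ := Prod.mk.inj this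
  exact ⟨h1, h2⟩

theorem shift (r : ℕ) : ∀ (κ : Type) [Finite κ], ∃ n, ∀ f : List ℕ → κ,
    ∃ (a : ℕ) (t : List ℕ) (b : ℕ), t.length = r ∧ (a :: (t ++ [b])).Pairwise (· < ·) ∧
      (∀ x ∈ a :: (t ++ [b]), x < n) ∧ f (a :: t) = f (t ++ [b]) := by
  induction r with
  | zero =>
    intro κ _
    obtain ⟨m, ⟨e⟩⟩ := Finite.exists_equiv_fin κ
    refine ⟨m + 1, fun f => ?_⟩
    obtain ⟨a, b, hab, h⟩ := Fintype.exists_ne_map_eq_of_card_lt
      (fun i : Fin (m + 1) => e (f [i])) (by simp)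
    have h' := e.injective h
    have ha := a.2
    have hb := b.2
    rcases lt_or_gt_of_ne hab with hl | hl
    · exact ⟨a, [], b, rfl, by simpa using hl, by simp; omega, h'⟩
    · exact ⟨b, [], a, rfl, by simpa using hl, by simp; omega, h'.symm⟩
  | succ r ih =>
    intro κ _
    obtain ⟨n, hn⟩ := ih (Set κ)
    refine ⟨n, fun f => ?_⟩
    obtain ⟨a, t, b, h1, h2, h3, h4⟩ :=
      hn fun l => {k | ∃ c < n, (∀ x ∈ l, x < c) ∧ f (l ++ [c]) = k}
    have h5 : f (a :: t ++ [b]) ∈ {k | ∃ c < n, (∀ x ∈ a :: t, x < c) ∧ f (a :: t ++ [c]) = k} := by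
      refine ⟨b, h3 b (by simp), fun x hx => ?_, rfl⟩
      rw [← List.cons_append, List.pairwise_append] at h2
      exact h2.2.2 x hx b (by simp)
    rw [h4] at h5
    obtain ⟨c, hc1, hc2, hc3⟩ := h5
    refine ⟨a, t ++ [b], c, by simp [h1], ?_, ?_, hc3.symm⟩
    · rw [← List.cons_append, List.pairwise_append]
      refine ⟨h2, by simp, fun x hx y hy => ?_⟩
      obtain rfl : y = c := by simpa using hy
      rcases List.mem_cons.1 hx with rfl | hx
      · exact (List.rel_of_pairwise_cons h2 (by simp)).trans (hc2 b (by simp))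
      · exact hc2 x hx
    · intro x hx
      rw [← List.cons_append, List.mem_append] at hx
      rcases hx with hx | hx
      · exact h3 x hx
      · obtain rfl : x = c := by simpa using hx
        exact hc1

def Sh (u v : List ℕ) : Prop := ∃ a t b, u = a :: t ∧ v = t ++ [b]

def TL (u v : List ℕ) : Prop := Sh u v ∨ (¬ Sh v u ∧ v < u)

def Good (r : ℕ) (u : List ℕ) : Prop := u.length = r + 3 ∧ u.Pairwise (· < ·)

theorem sh_lt {r : ℕ} {u v : List ℕ} (hu : Good r u) (h : Sh u v) : u < v := by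
  obtain ⟨a, t, b, rfl, rfl⟩ := h
  rcases t with _ | ⟨c, t⟩
  · simp [Good] at hu
  · exact List.Lex.rel (List.rel_of_pairwise_cons hu.2 (by simp))

theorem tour {W : Type} {r : ℕ} (e : W → List ℕ) (he : Function.Injective e)
    (hg : ∀ a, Good r (e a)) : IsTournament fun a b => TL (e a) (e b) := by
  refine ⟨fun a h => ?_, fun a b hab => ?_⟩
  · rcases h with h | h
    · exact lt_irrefl _ (sh_lt (hg a) h)
    · exact lt_irrefl _ h.2
  · have h1 := sh_lt (v := e b) (hg a)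
    have h2 := sh_lt (v := e a) (hg b)
    have h3 := lt_or_gt_of_ne (he.ne hab)
    have h4 : ¬ (e a < e b ∧ e b < e a) := fun h => lt_asymm h.1 h.2
    simp only [TL]
    tauto

theorem two {V : Type} (T : V → V → Prop) (c : V → Bool)
    (h : ∀ a b d, c a = c b → c b = c d → T a b → T b d → T a d) : HasDecomp T 3 := by
  refine ⟨![fun a b => T a b ∧ c a = c b, fun a b => T a b ∧ c a = true ∧ c b = false,
    fun a b => T a b ∧ c a = false ∧ c b = true], ?_, ?_, ?_⟩
  · intro j a b hj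
    fin_cases j <;> exact hj.1
  · intro j a b d h1 h2
    fin_cases j
    · exact ⟨h a b d h1.2 h2.2 h1.1 h2.1, h1.2.trans h2.2⟩
    · exact absurd (h1.2.2.symm.trans h2.2.1) (by simp)
    · exact absurd (h1.2.2.symm.trans h2.2.1) (by simp)
  · intro a b hab
    cases ha : c a <;> cases hb : c b
    · exact ⟨0, hab, ha.trans hb.symm⟩
    · exact ⟨2, hab, ha, hb⟩
    · exact ⟨1, hab, ha, hb⟩
    · exact ⟨0, hab, ha.trans hb.symm⟩

theorem upper {W : Type} [Fintype W] {r : ℕ} (e : W → List ℕ) (hg : ∀ a, Good r (e a))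
    (hW : Fintype.card W ≤ r) : pod (fun a b => TL (e a) (e b)) ≤ 3 := by
  classical
  let F : Finset ℕ := Finset.univ.image fun a => (e a).headD 0
  have hF : F.card ≤ r := Finset.card_image_le.trans hW
  let p : List ℕ → ℕ := fun l => l.findIdx fun x => decide (x ∉ F)
  have hp : ∀ a b, Sh (e a) (e b) → p (e a) = p (e b) + 1 := by
    rintro a b ⟨x, t, y, h1, h2⟩
    have hx : x ∈ F := Finset.mem_image.2 ⟨a, Finset.mem_univ _, by simp [h1]⟩
    have hga := hg a
    rw [h1] at hga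
    have ht : ∃ z ∈ t, z ∉ F := by
      by_contra hc
      push Not at hc
      have h3 : t.toFinset ⊆ F := fun z hz => hc z (List.mem_toFinset.1 hz)
      have h4 : t.Nodup := (List.pairwise_cons.1 hga.2).2.imp fun h => ne_of_lt h
      have h5 := Finset.card_le_card h3
      rw [List.toFinset_card_of_nodup h4] at h5
      have := hga.1
      simp at this
      omega
    have hlt : t.findIdx (fun x => decide (x ∉ F)) < t.length :=
      List.findIdx_lt_length_of_exists (by simpa using ht)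
    simp only [p, h1, h2]
    rw [List.findIdx_cons, List.findIdx_append, if_pos hlt]
    simp [hx]
  refine Nat.sInf_le (two _ (fun a => decide (p (e a) % 2 = 0)) fun a b d h1 h2 h3 h4 => ?_)
  have n : ∀ a b, decide (p (e a) % 2 = 0) = decide (p (e b) % 2 = 0) → ¬ Sh (e a) (e b) := by
    intro a b h hs
    have := hp a b hs
    simp only [decide_eq_decide] at h
    omega
  exact Or.inr ⟨n d a (h1.trans h2).symm,
    (h4.resolve_left (n b d h2)).2.trans (h3.resolve_left (n a b h1)).2⟩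

theorem lower (r N : ℕ) : ∃ (m : ℕ) (e : Fin m → List ℕ), Function.Injective e ∧
    (∀ a, Good r (e a)) ∧ N ≤ pod (fun a b => TL (e a) (e b)) := by
  obtain ⟨n, hn⟩ := shift (r + 2) (Fin N → Prop)
  have hfin : {l : List ℕ | Good r l ∧ ∀ x ∈ l, x < n}.Finite := by
    refine ((List.finite_length_eq (Fin n) (r + 3)).image (List.map Fin.val)).subset ?_
    rintro l ⟨h1, h2⟩
    refine ⟨l.pmap Fin.mk h2, by simpa using h1.1, ?_⟩
    simp [List.map_pmap]
  obtain ⟨m, ⟨g⟩⟩ := @Finite.exists_equiv_fin _ hfin.to_subtype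
  let e : Fin m → List ℕ := fun i => (g.symm i).1
  have he : Function.Injective e := Subtype.val_injective.comp g.symm.injective
  have hg : ∀ a, Good r (e a) := fun a => (g.symm a).2.1
  refine ⟨m, e, he, hg, ?_⟩
  by_contra hc
  obtain ⟨P, h1, h2, h3⟩ := Nat.sInf_mem (decomp_ex fun a b => TL (e a) (e b))
  obtain ⟨a, t, b, ht, hpw, hb, hf⟩ := hn fun l j =>
    ∃ j' x y, j'.1 = j.1 ∧ e x = l ∧ P j' x y ∧ Sh (e x) (e y)
  have g1 : Good r (a :: t) ∧ ∀ x ∈ a :: t, x < n :=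
    ⟨⟨by simp [ht], hpw.sublist (by simp)⟩, fun x hx => hb x (by
      rw [← List.cons_append]; exact List.mem_append_left _ hx)⟩
  have g2 : Good r (t ++ [b]) ∧ ∀ x ∈ t ++ [b], x < n :=
    ⟨⟨by simp [ht], (List.pairwise_cons.1 hpw).2⟩, fun x hx => hb x (List.mem_cons_of_mem _ hx)⟩
  have e1 : e (g ⟨_, g1⟩) = a :: t := by simp [e]
  have e2 : e (g ⟨_, g2⟩) = t ++ [b] := by simp [e]
  have s12 : Sh (e (g ⟨_, g1⟩)) (e (g ⟨_, g2⟩)) := ⟨a, t, b, e1, e2⟩
  obtain ⟨j, hj⟩ := h3 _ _ (Or.inl s12)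
  have hjN : j.1 < N := j.2.trans (not_le.1 hc)
  obtain ⟨j', x, y, k1, k2, k3, k4⟩ := (congrFun hf ⟨j.1, hjN⟩).mp ⟨j, _, _, rfl, e1, hj, s12⟩
  obtain rfl : j' = j := Fin.ext k1
  obtain rfl : x = g ⟨_, g2⟩ := he (k2.trans e2.symm)
  rcases h1 _ _ _ (h2 _ _ _ _ hj k3) with h | h
  · rw [e1] at h
    rw [e2] at k4
    obtain ⟨a1, t1, b1, q1, q2⟩ := h
    obtain ⟨a2, t2, b2, q3, q4⟩ := k4
    obtain ⟨-, rfl⟩ := List.cons.inj q1
    rcases t with _ | ⟨c, _ | ⟨d, t⟩⟩
    · simp at ht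
    · simp at ht
    · obtain ⟨-, rfl⟩ := List.cons.inj q3
      rw [q2] at q4
      have : c = d := (List.cons.inj q4).1
      have h6 : c < d := by
        simp at hpw
        tauto
      omega
  · exact lt_asymm h.2 ((sh_lt (hg _) s12).trans (sh_lt (hg _) k4))

theorem strong (k N : ℕ) : ∃ (m : ℕ) (T : Fin m → Fin m → Prop), IsTournament T ∧ N ≤ pod T ∧
    ∀ X : Finset (Fin m), X.card ≤ k → (pod fun a b : X => T a b) ≤ 3 := by
  obtain ⟨m, e, i1, g1, p1⟩ := lower k N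
  exact ⟨m, _, tour e i1 g1, p1, fun X hX =>
    upper (W := X) (fun a => e a) (fun a => g1 a) (by simpa using hX)⟩

theorem result :
    (∀ k N : ℕ, ∃ (m : ℕ) (T : Fin m → Fin m → Prop), IsTournament T ∧ N ≤ pod T ∧
      ∀ X : Finset (Fin m), X.card ≤ k → (pod fun a b : X => T a b) ≤ 3) ∧
    ¬ ∀ k s : ℕ, 0 < k → 0 < s →
      (∃ m ≤ k, ∃ T : Fin m → Fin m → Prop, IsTournament T ∧ s ≤ pod T) →
      ∃ N : ℕ, ∀ (m : ℕ) (T : Fin m → Fin m → Prop), IsTournament T → N ≤ pod T →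
        ∃ X : Finset (Fin m), X.card ≤ k ∧ s ≤ pod fun a b : X => T a b := by
  refine ⟨strong, fun h => ?_⟩
  obtain ⟨m0, T0, i0, p0, -⟩ := strong 0 4
  obtain ⟨N, hN⟩ := h (m0 + 1) 4 (by omega) (by omega) ⟨m0, by omega, T0, i0, p0⟩
  obtain ⟨m, T, i1, p1, q1⟩ := strong (m0 + 1) N
  obtain ⟨X, hX, h4⟩ := hN m T i1 p1
  have := q1 X hX
  omega

end Pool.Agent.Results.MP_b90bcc_co.Counter
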